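import Pool.Agent.Q291.HEA.Stm

/-!
Job S4A of project HEA: the fourth iterate of the operator `U K (1/K) 0` at `1`.

For an odd function `c` on the integers `U K (1/K) 0 c k` is the mean of `c (k + a - b)` over
`0 ≤ a, b < K`. The sign function is the fourth iterated second difference of an odd function which is
an even polynomial on the positive integers.
-/

set_option autoImplicit false

namespace Pool.Agent.Q153.HEA

open Finset Pool.Agent.Q291.HEA

/-- odd extension -/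
noncomputable def od (c : ℕ → ℝ) (z : ℤ) : ℝ := if 0 < z then c z.toNat else -c (-z).toNat

lemma od_pos (c : ℕ → ℝ) (n : ℕ) (h : 0 < n) : od c (n : ℤ) = c n := by
  unfold od
  rw [if_pos (by exact_mod_cast h)]
  simp

lemma od_neg (c : ℕ → ℝ) (h0 : c 0 = 0) (z : ℤ) : od c (-z) = -od c z := by
  unfold od
  rcases lt_trichotomy z 0 with h | h | h
  · rw [if_pos (by omega), if_neg (by omega)]
    simp
  · subst h
    simp [h0]
  · rw [if_neg (by omega), if_pos h]
    simp

lemma od_zero (c : ℕ → ℝ) (h0 : c 0 = 0) : od c 0 = 0 := by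
  unfold od
  simp [h0]

/-- the sum over a chain -/
lemma chain (c : ℕ → ℝ) (h0 : c 0 = 0) (s k : ℕ) :
    ∑ r ∈ range (min s k), c (s + k - 1 - 2 * r) =
      ∑ r ∈ range s, od c ((k : ℤ) + (s - 1 - 2 * r)) := by
  have h1 : ∑ r ∈ range (min s k), c (s + k - 1 - 2 * r) =
      ∑ r ∈ range (min s k), od c ((k : ℤ) + (s - 1 - 2 * r)) := by
    apply Finset.sum_congr rfl
    intro r hr
    rw [Finset.mem_range] at hr
    have h2 : ((k : ℤ) + (s - 1 - 2 * r)) = ((s + k - 1 - 2 * r : ℕ) : ℤ) := by omega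
    rw [h2, od_pos c _ (by omega)]
  rw [h1]
  rcases le_total s k with h | h
  · rw [min_eq_left h]
  · rw [min_eq_right h, ← Finset.sum_range_add_sum_Ico _ h]
    have h2 : ∑ r ∈ Ico k s, od c ((k : ℤ) + (s - 1 - 2 * r)) = 0 := by
      have h3 : ∑ r ∈ Ico k s, od c ((k : ℤ) + (s - 1 - 2 * r)) =
          ∑ r ∈ Ico k s, -od c ((k : ℤ) + (s - 1 - 2 * r)) := by
        refine Finset.sum_nbij' (fun r => k + s - 1 - r) (fun r => k + s - 1 - r) ?_ ?_ ?_ ?_ ?_
        · intro r hr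
          rw [Finset.mem_Ico] at hr ⊢
          omega
        · intro r hr
          rw [Finset.mem_Ico] at hr ⊢
          omega
        · intro r hr
          rw [Finset.mem_Ico] at hr
          show k + s - 1 - (k + s - 1 - r) = r
          omega
        · intro r hr
          rw [Finset.mem_Ico] at hr
          show k + s - 1 - (k + s - 1 - r) = r
          omega
        · intro r hr
          rw [Finset.mem_Ico] at hr
          rw [← od_neg c h0]
          congr 1
          omega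
      rw [Finset.sum_neg_distrib] at h3
      linarith
    rw [h2, add_zero]

/-- even and odd indices -/
lemma interleave (f : ℤ → ℝ) (K : ℕ) :
    ∑ r ∈ range (K + 1), f ((K : ℤ) - 2 * r) + ∑ r ∈ range K, f ((K : ℤ) - 1 - 2 * r) =
      ∑ b ∈ range K, f ((K : ℤ) - b) + ∑ a ∈ range K, f ((a : ℤ) - K) + f 0 := by
  have key : ∀ (n : ℕ) (g : ℕ → ℝ), ∑ r ∈ range (n + 1), g (2 * r) + ∑ r ∈ range n, g (2 * r + 1) =
      ∑ i ∈ range (2 * n + 1), g i := by
    intro n g
    induction n with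
    | zero => simp
    | succ n ih =>
      rw [show 2 * (n + 1) + 1 = (2 * n + 1) + 1 + 1 by ring, Finset.sum_range_succ _ (2 * n + 1 + 1),
        Finset.sum_range_succ _ (2 * n + 1), ← ih, Finset.sum_range_succ _ (n + 1),
        Finset.sum_range_succ _ n]
      rw [show 2 * (n + 1) = 2 * n + 1 + 1 by ring]
      rw [Finset.sum_range_succ (fun r => g (2 * r + 1)) n]
      ring
  have h1 := key K (fun i => f ((K : ℤ) - i))
  have h2 : ∑ r ∈ range (K + 1), f ((K : ℤ) - 2 * r) =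
      ∑ r ∈ range (K + 1), f ((K : ℤ) - ((2 * r : ℕ) : ℤ)) := by
    apply Finset.sum_congr rfl
    intro r _
    push_cast
    rfl
  have h3 : ∑ r ∈ range K, f ((K : ℤ) - 1 - 2 * r) =
      ∑ r ∈ range K, f ((K : ℤ) - ((2 * r + 1 : ℕ) : ℤ)) := by
    apply Finset.sum_congr rfl
    intro r _
    congr 1
    push_cast
    ring
  rw [h2, h3, h1]
  have h4 : ∑ i ∈ range (2 * K + 1), f ((K : ℤ) - i) =
      ∑ i ∈ range K, f ((K : ℤ) - i) + ∑ i ∈ range (K + 1), f (-(i : ℤ)) := by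
    rw [show 2 * K + 1 = K + (K + 1) by ring, Finset.sum_range_add]
    congr 1
    apply Finset.sum_congr rfl
    intro i _
    congr 1
    push_cast
    ring
  rw [h4]
  have h5 : ∑ i ∈ range (K + 1), f (-(i : ℤ)) = ∑ a ∈ range K, f ((a : ℤ) - K) + f 0 := by
    rw [Finset.sum_range_succ']
    simp only [Nat.cast_zero, neg_zero]
    congr 1
    rw [← Finset.sum_range_reflect]
    apply Finset.sum_congr rfl
    intro a ha
    rw [Finset.mem_range] at ha
    congr 1
    omega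
  rw [h5]
  ring

/-- the double mean -/
noncomputable def T (K : ℕ) (f : ℤ → ℝ) (z : ℤ) : ℝ :=
  ∑ a ∈ range K, ∑ b ∈ range K, f (z + a - b)

lemma T_chain (f : ℤ → ℝ) (K : ℕ) (hK : 1 ≤ K) :
    2 * ∑ s ∈ Ico 1 K, ∑ r ∈ range s, f ((s : ℤ) - 1 - 2 * r) +
      ∑ r ∈ range K, f ((K : ℤ) - 1 - 2 * r) = T K f 0 := by
  unfold T
  induction K, hK using Nat.le_induction with
  | base => simp
  | succ K hK ih =>
    rw [Finset.sum_Ico_succ_top hK, Finset.sum_range_succ (fun a : ℕ =>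
      ∑ b ∈ range (K + 1), f (0 + (a : ℤ) - b)) K]
    have h1 : ∑ a ∈ range K, ∑ b ∈ range (K + 1), f (0 + (a : ℤ) - b) =
        ∑ a ∈ range K, ∑ b ∈ range K, f (0 + (a : ℤ) - b) + ∑ a ∈ range K, f ((a : ℤ) - K) := by
      rw [← Finset.sum_add_distrib]
      apply Finset.sum_congr rfl
      intro a _
      rw [Finset.sum_range_succ]
      simp
    have h2 : ∑ b ∈ range (K + 1), f (0 + (K : ℤ) - b) = ∑ b ∈ range K, f ((K : ℤ) - b) + f 0 := by
      rw [Finset.sum_range_succ]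
      simp
    rw [h1, h2, ← ih]
    have h3 := interleave f K
    have h4 : ∑ r ∈ range (K + 1), f (((K + 1 : ℕ) : ℤ) - 1 - 2 * r) =
        ∑ r ∈ range (K + 1), f ((K : ℤ) - 2 * r) := by
      apply Finset.sum_congr rfl
      intro r _
      congr 1
      push_cast
      ring
    rw [h4]
    linarith

lemma od_U (K : ℕ) (hK : 1 ≤ K) (c : ℕ → ℝ) (h0 : c 0 = 0) (k : ℕ) :
    U K (1 / K) 0 c k = 1 / (K : ℝ) ^ 2 * T K (od c) k := by
  have h1 : T K (od c) k = T K (fun z => od c ((k : ℤ) + z)) 0 := by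
    unfold T
    apply Finset.sum_congr rfl
    intro a _
    apply Finset.sum_congr rfl
    intro b _
    congr 1
    ring
  rw [h1, ← T_chain _ K hK]
  unfold U
  simp_rw [chain c h0]
  have h2 : Finset.range (K + 2) = insert 0 (insert K (insert (K + 1) (Ico 1 K))) := by
    ext x
    simp only [Finset.mem_range, Finset.mem_insert, Finset.mem_Ico]
    omega
  rw [h2, Finset.sum_insert (by simp; omega), Finset.sum_insert (by simp),
    Finset.sum_insert (by simp)]
  have w0 : wgt K (1 / K) 0 0 = 0 := by unfold wgt; simp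
  have wK : wgt K (1 / K) 0 K = 1 / (K : ℝ) ^ 2 := by
    unfold wgt
    rw [if_neg (by omega), if_neg (by omega), if_pos rfl]
    field_simp
    ring
  have wK1 : wgt K (1 / K) 0 (K + 1) = 0 := by
    unfold wgt
    rw [if_neg (by omega), if_neg (by omega), if_neg (by omega), if_pos rfl]
    ring
  rw [w0, wK, wK1]
  have h3 : ∑ s ∈ Ico 1 K, wgt K (1 / K) 0 s * ∑ r ∈ range s, od c ((k : ℤ) + (s - 1 - 2 * r)) =
      2 / (K : ℝ) ^ 2 * ∑ s ∈ Ico 1 K, ∑ r ∈ range s, od c ((k : ℤ) + (s - 1 - 2 * r)) := by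
    rw [Finset.mul_sum]
    apply Finset.sum_congr rfl
    intro s hs
    rw [Finset.mem_Ico] at hs
    congr 1
    unfold wgt
    rw [if_neg (by omega), if_pos hs.2]
    field_simp
    try ring
  rw [h3]
  ring

lemma T_odd (K : ℕ) (f : ℤ → ℝ) (hf : ∀ z, f (-z) = -f z) (z : ℤ) : T K f (-z) = -T K f z := by
  unfold T
  rw [Finset.sum_comm, ← Finset.sum_neg_distrib]
  apply Finset.sum_congr rfl
  intro a _
  rw [← Finset.sum_neg_distrib]
  apply Finset.sum_congr rfl
  intro b _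
  rw [← hf]
  congr 1
  ring

lemma U_zero (K : ℕ) (u v : ℝ) (c : ℕ → ℝ) : U K u v c 0 = 0 := by
  unfold U
  simp

lemma od_step (K : ℕ) (hK : 1 ≤ K) (c : ℕ → ℝ) (h0 : c 0 = 0) (z : ℤ) :
    od (U K (1 / K) 0 c) z = 1 / (K : ℝ) ^ 2 * T K (od c) z := by
  rcases lt_or_ge 0 z with h | h
  · obtain ⟨n, rfl⟩ := Int.eq_ofNat_of_zero_le h.le
    have hn : 0 < n := by exact_mod_cast h
    rw [od_pos _ _ hn, od_U K hK c h0]
  · obtain ⟨n, hn⟩ := Int.eq_ofNat_of_zero_le (show 0 ≤ -z by omega)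
    have hz : z = -(n : ℤ) := by omega
    rw [hz, od_neg _ (U_zero K _ _ c), T_odd K _ (od_neg c h0)]
    rcases Nat.eq_zero_or_pos n with h1 | h1
    · subst h1
      have h2 : T K (od c) (-0) = -T K (od c) 0 := T_odd K _ (od_neg c h0) 0
      rw [neg_zero] at h2
      have h3 : T K (od c) 0 = 0 := by linarith
      simp only [Nat.cast_zero]
      rw [od_zero _ (U_zero K _ _ c), h3]
      ring
    · rw [od_pos _ _ h1, od_U K hK c h0]
      ring

/-- second difference with step `m` -/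
def Dl (m : ℤ) (g : ℤ → ℝ) (z : ℤ) : ℝ := g (z + m) - 2 * g z + g (z - m)

lemma tele1 (h : ℤ → ℝ) (K : ℕ) (x : ℤ) :
    ∑ b ∈ range K, (h (x - b) - h (x - b - 1)) = h x - h (x - K) := by
  induction K with
  | zero => simp
  | succ K ih =>
    rw [Finset.sum_range_succ, ih]
    push_cast
    rw [show x - ((K : ℤ) + 1) = x - K - 1 by ring]
    ring

lemma T_D (K : ℕ) (g : ℤ → ℝ) (z : ℤ) : T K (Dl 1 g) z = Dl K g z := by
  unfold T
  have h1 : ∀ a ∈ range K, ∑ b ∈ range K, Dl 1 g (z + a - b) =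
      (g (z + a + 1) - g (z + a)) - (g (z + a + 1 - K) - g (z + a - K)) := by
    intro a _
    have h2 := tele1 (fun y => g (y + 1) - g y) K (z + a)
    have h3 : ∑ b ∈ range K, Dl 1 g (z + a - b) = ∑ b ∈ range K,
        ((fun y => g (y + 1) - g y) (z + a - b) - (fun y => g (y + 1) - g y) (z + a - b - 1)) := by
      apply Finset.sum_congr rfl
      intro b _
      unfold Dl
      beta_reduce
      rw [show z + (a : ℤ) - b - 1 + 1 = z + a - b by ring]
      ring
    rw [h3, h2]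
    rw [show z + (a : ℤ) - K + 1 = z + a + 1 - K by ring]
  rw [Finset.sum_congr rfl h1]
  unfold Dl
  clear h1
  have h4 : ∀ n : ℕ, ∑ a ∈ range n, ((g (z + a + 1) - g (z + a)) -
      (g (z + a + 1 - K) - g (z + a - K))) = (g (z + n) - g z) - (g (z + n - K) - g (z - K)) := by
    intro n
    induction n with
    | zero => simp
    | succ n ih =>
      rw [Finset.sum_range_succ, ih]
      push_cast
      rw [show z + ((n : ℤ) + 1) = z + n + 1 by ring]
      ring
  rw [h4 K]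
  rw [show z + (K : ℤ) - K = z by ring]
  ring

lemma T_Dl (K : ℕ) (m : ℤ) (g : ℤ → ℝ) : T K (Dl m g) = Dl m (T K g) := by
  funext z
  unfold T Dl
  rw [Finset.mul_sum, ← Finset.sum_sub_distrib, ← Finset.sum_add_distrib]
  apply Finset.sum_congr rfl
  intro a _
  rw [Finset.mul_sum, ← Finset.sum_sub_distrib, ← Finset.sum_add_distrib]
  apply Finset.sum_congr rfl
  intro b _
  rw [show z + (a : ℤ) - b + m = z + m + a - b by ring,
    show z + (a : ℤ) - b - m = z - m + a - b by ring]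

lemma T_smul (K : ℕ) (r : ℝ) (g : ℤ → ℝ) : T K (fun z => r * g z) = fun z => r * T K g z := by
  funext z
  unfold T
  simp_rw [Finset.mul_sum]

lemma T_D' (K : ℕ) (g : ℤ → ℝ) : T K (Dl 1 g) = Dl K g := by
  funext z
  exact T_D K g z

/-- the even polynomial -/
noncomputable def Qp (z : ℤ) : ℝ :=
  (z : ℝ) ^ 2 * ((z : ℝ) ^ 2 - 1) * ((z : ℝ) ^ 2 - 4) * ((z : ℝ) ^ 2 - 9) / 40320

/-- its odd version -/
noncomputable def G (z : ℤ) : ℝ := if 0 ≤ z then Qp z else -Qp z

lemma G_pos (z : ℤ) (h : -3 ≤ z) : G z = Qp z := by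
  unfold G
  split_ifs with h1
  · rfl
  · have : z = -1 ∨ z = -2 ∨ z = -3 := by omega
    rcases this with h2 | h2 | h2 <;> subst h2 <;> unfold Qp <;> norm_num

lemma G_neg (z : ℤ) (h : z ≤ 3) : G z = -Qp z := by
  unfold G
  split_ifs with h1
  · have : z = 0 ∨ z = 1 ∨ z = 2 ∨ z = 3 := by omega
    rcases this with h2 | h2 | h2 | h2 <;> subst h2 <;> unfold Qp <;> norm_num
  · rfl

/-- the fourth power of the second difference -/
lemma D4 (m : ℤ) (g : ℤ → ℝ) (z : ℤ) : Dl m (Dl m (Dl m (Dl m g))) z =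
    g (z + 4 * m) - 8 * g (z + 3 * m) + 28 * g (z + 2 * m) - 56 * g (z + m) + 70 * g z -
      56 * g (z - m) + 28 * g (z - 2 * m) - 8 * g (z - 3 * m) + g (z - 4 * m) := by
  unfold Dl
  have e1 : z + m + m + m + m = z + 4 * m := by ring
  have e2 : z + m + m + m - m = z + 2 * m := by ring
  have e3 : z + m + m + m = z + 3 * m := by ring
  have e4 : z + m + m - m = z + m := by ring
  have e5 : z + m + m = z + 2 * m := by ring
  have e6 : z + m - m = z := by ring
  have e7 : z - m + m = z := by ring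
  have e8 : z - m - m = z - 2 * m := by ring
  have e9 : z - 2 * m - m = z - 3 * m := by ring
  have e10 : z - 2 * m + m = z - m := by ring
  have e11 : z - 3 * m - m = z - 4 * m := by ring
  have e12 : z - 3 * m + m = z - 2 * m := by ring
  have e13 : z + 2 * m + m = z + 3 * m := by ring
  have e14 : z + 2 * m - m = z + m := by ring
  have e15 : z + 3 * m + m = z + 4 * m := by ring
  have e16 : z + 3 * m - m = z + 2 * m := by ring
  simp only [e5, e6, e7, e8, e9, e10, e11, e12, e13, e14, e15, e16]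
  ring

lemma sg_eq : od c0 = Dl 1 (Dl 1 (Dl 1 (Dl 1 G))) := by
  funext z
  rw [D4]
  rcases lt_trichotomy z 0 with h | h | h
  · have h1 : od c0 z = -1 := by
      unfold od c0
      rw [if_neg (by omega), if_neg (by omega)]
    rw [h1, G_neg _ (by omega), G_neg _ (by omega), G_neg _ (by omega), G_neg _ (by omega),
      G_neg _ (by omega), G_neg _ (by omega), G_neg _ (by omega), G_neg _ (by omega),
      G_neg _ (by omega)]
    unfold Qp
    push_cast
    ring
  · subst h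
    have h1 : od c0 0 = 0 := od_zero _ (by unfold c0; simp)
    rw [h1, G_pos (0 + 4 * 1) (by omega), G_pos (0 + 3 * 1) (by omega), G_pos (0 + 2 * 1) (by omega),
      G_pos (0 + 1) (by omega), G_pos 0 (by omega), G_neg (0 - 1) (by omega),
      G_neg (0 - 2 * 1) (by omega), G_neg (0 - 3 * 1) (by omega), G_neg (0 - 4 * 1) (by omega)]
    unfold Qp
    norm_num
  · have h1 : od c0 z = 1 := by
      unfold od c0
      rw [if_pos h, if_neg (by omega)]
    rw [h1, G_pos _ (by omega), G_pos _ (by omega), G_pos _ (by omega), G_pos _ (by omega),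
      G_pos _ (by omega), G_pos _ (by omega), G_pos _ (by omega), G_pos _ (by omega),
      G_pos _ (by omega)]
    unfold Qp
    push_cast
    ring

/-- the exact value of the fourth iterate -/
theorem iter4 (K : ℕ) (hK : 1 ≤ K) : (U K (1 / K) 0)^[4] c0 1 =
    (302 / 315 * (K : ℝ) ^ 7 + (K : ℝ) ^ 5 / 9 - (K : ℝ) ^ 3 / 45 - K / 21) / (K : ℝ) ^ 8 := by
  have hc0 : c0 0 = 0 := by unfold c0; simp
  have hz : ∀ c : ℕ → ℝ, U K (1 / K) 0 c 0 = 0 := fun c => U_zero K _ _ c
  have h1 : (U K (1 / K) 0)^[4] c0 = U K (1 / K) 0 (U K (1 / K) 0 (U K (1 / K) 0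
      (U K (1 / K) 0 c0))) := rfl
  rw [h1]
  have s1 : od (U K (1 / K) 0 c0) = fun z => 1 / (K : ℝ) ^ 2 * T K (od c0) z := by
    funext z
    exact od_step K hK c0 hc0 z
  have s2 : od (U K (1 / K) 0 (U K (1 / K) 0 c0)) =
      fun z => 1 / (K : ℝ) ^ 2 * (1 / (K : ℝ) ^ 2 * T K (T K (od c0)) z) := by
    funext z
    rw [od_step K hK _ (hz _) z, s1, T_smul]
  have s3 : od (U K (1 / K) 0 (U K (1 / K) 0 (U K (1 / K) 0 c0))) =
      fun z => 1 / (K : ℝ) ^ 2 * (1 / (K : ℝ) ^ 2 * (1 / (K : ℝ) ^ 2 *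
        T K (T K (T K (od c0))) z)) := by
    funext z
    rw [od_step K hK _ (hz _) z, s2, T_smul, T_smul]
  have s4 : U K (1 / K) 0 (U K (1 / K) 0 (U K (1 / K) 0 (U K (1 / K) 0 c0))) 1 =
      1 / (K : ℝ) ^ 2 * (1 / (K : ℝ) ^ 2 * (1 / (K : ℝ) ^ 2 * (1 / (K : ℝ) ^ 2 *
        T K (T K (T K (T K (od c0)))) 1))) := by
    rw [od_U K hK _ (hz _) 1, s3, T_smul, T_smul, T_smul]
    rfl
  rw [s4, sg_eq]
  have h5 : T K (T K (T K (T K (Dl 1 (Dl 1 (Dl 1 (Dl 1 G))))))) =
      Dl K (Dl K (Dl K (Dl K G))) := by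
    have e2 : ∀ g : ℤ → ℝ, T K (T K (Dl 1 (Dl 1 g))) = Dl K (Dl K g) := fun g => by
      rw [T_D', T_Dl, T_D']
    have e3 : ∀ g : ℤ → ℝ, T K (T K (T K (Dl 1 (Dl 1 (Dl 1 g))))) = Dl K (Dl K (Dl K g)) :=
      fun g => by
        rw [T_D', T_Dl, T_Dl, e2]
    rw [T_D', T_Dl, T_Dl, T_Dl, e3]
  rw [h5, D4]
  have hK' : (K : ℝ) ≠ 0 := by
    have : 0 < K := hK
    exact_mod_cast this.ne'
  rw [G_pos (1 + 4 * K) (by omega), G_pos (1 + 3 * K) (by omega), G_pos (1 + 2 * K) (by omega),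
    G_pos (1 + K) (by omega), G_pos 1 (by omega), G_neg (1 - K) (by omega),
    G_neg (1 - 2 * K) (by omega), G_neg (1 - 3 * K) (by omega), G_neg (1 - 4 * K) (by omega)]
  unfold Qp
  push_cast
  field_simp
  ring

theorem t_S4A : P_S4A := by
  intro K hK
  rw [iter4 K (by omega)]
  have hK' : (24 : ℝ) ≤ K := by exact_mod_cast hK
  have hK0 : (0 : ℝ) < K := by linarith
  rw [div_le_iff₀ (by positivity)]
  have h1 : 959 / 1000 * (1 / (K : ℝ)) * (K : ℝ) ^ 8 = 959 / 1000 * (K : ℝ) ^ 7 := by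
    field_simp
  rw [h1]
  have h2 : (K : ℝ) ^ 7 = (K : ℝ) ^ 5 * (K : ℝ) ^ 2 := by ring
  have h3 : (576 : ℝ) ≤ (K : ℝ) ^ 2 := by nlinarith
  have h4 : (K : ℝ) ^ 5 * 576 ≤ (K : ℝ) ^ 5 * (K : ℝ) ^ 2 :=
    mul_le_mul_of_nonneg_left h3 (by positivity)
  have h5 : 0 ≤ (K : ℝ) ^ 3 := by positivity
  have h6 : 0 ≤ (K : ℝ) ^ 5 := by positivity
  rw [← h2] at h4
  linarith

end Pool.Agent.Q153.HEA
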